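import Pool.Agent.X37.FE.Stm

set_option autoImplicit false

namespace Pool.Agent.X297.FECON

open MeasureTheory Set Filter Topology RealInnerProductSpace Pool.Agent.X83.DA Pool.Agent.X37.FE

theorem t_CON (H : Type*) [NormedAddCommGroup H] [InnerProductSpace ℝ H] [CompleteSpace H] : S_CON H := by
  intro hB B L c P G hc hd h1 h2 hs hp hn hF
  have bd : ∀ τ : ℝ, 0 ≤ τ → ∃ C : ℝ, 0 ≤ C ∧ ∀ n x t, |t| ≤ τ → ‖P n t x‖ ≤ C * ‖x‖ ∧ ‖G n t x‖ ≤ C * ‖x‖ := by
    intro τ hτ
    obtain ⟨C, hC0, hC⟩ := hB c τ hc hτ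
    refine ⟨C, hC0, fun n x t ht => ?_⟩
    have := hC (L n) (hs n) (hp n) (fun s => P n s x) (fun s => G n s x) (fun _ => 0) 0 le_rfl
      (fun s => (hF n).dP x s) (fun s => by simpa using (hF n).dG x s) (by simp [(hF n).P0])
      (fun s _ => by simp) t ht
    simp only [(hF n).G0, add_zero] at this
    exact ⟨by simpa using this.2, by simpa using this.1⟩
  refine ⟨bd, ?_⟩
  intro x τ ε hε
  -- we may take τ ≥ 0
  obtain ⟨C, hC0, hC⟩ := bd (max τ 0) (le_max_right _ _)
  obtain ⟨C', hC'0, hC'⟩ := hB c (max τ 0) hc (le_max_right _ _)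
  -- density
  have hpos : 0 < ε / (4 * (C + 1)) := by positivity
  obtain ⟨x0, hx0, hxx⟩ := Metric.dense_iff.mp hd x _ hpos
  obtain ⟨y, rfl⟩ := hxx
  rw [Metric.mem_ball, dist_comm, dist_eq_norm] at hx0
  -- large N
  obtain ⟨N, hN⟩ := exists_nat_gt (4 * C' * (C * ‖y‖) / ε + 1)
  refine ⟨N, fun m n hm hn' t ht => ?_⟩
  have ht' : |t| ≤ max τ 0 := le_trans ht (le_max_left _ _)
  have key : ‖G n t (B (B y)) - G m t (B (B y))‖ ≤ ε / 2 ∧ ‖P n t (B (B y)) - P m t (B (B y))‖ ≤ ε / 2 := by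
    have comB : ∀ n x, B (L n x) = L n (B x) := by
      intro n x
      have a := h1 n x
      have b := h2 n x
      have : L n (B x) + (1 / ((n : ℝ) + 1)) • L n x = B (L n x) + (1 / ((n : ℝ) + 1)) • L n x := by
        rw [a, b]
      exact (add_right_cancel this).symm
    let K : ℝ := (1 / ((n : ℝ) + 1) + 1 / ((m : ℝ) + 1)) * (C * ‖y‖)
    have hK : 0 ≤ K := by positivity
    have hg : ∀ s, |s| ≤ max τ 0 → ‖L m (P m s (B (B y))) - L n (P m s (B (B y)))‖ ≤ K := by
      intro s hs'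
      have e1 : P m s (B (B y)) = B (B (P m s y)) := by
        rw [← ((hF m).com B (fun x => comB m x) s (B y)).1, ← ((hF m).com B (fun x => comB m x) s y).1]
      rw [e1]
      have a := h1 m (B (P m s y))
      have b := h1 n (B (P m s y))
      have e2 : L m (B (B (P m s y))) - L n (B (B (P m s y)))
          = (1 / ((n : ℝ) + 1)) • L n (B (P m s y)) - (1 / ((m : ℝ) + 1)) • L m (B (P m s y)) := by
        have a' := eq_sub_of_add_eq a
        have b' := eq_sub_of_add_eq b
        rw [a', b']; abel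
      rw [e2]
      have p0 := (hC m y s hs').1
      calc ‖(1 / ((n : ℝ) + 1)) • L n (B (P m s y)) - (1 / ((m : ℝ) + 1)) • L m (B (P m s y))‖
          ≤ ‖(1 / ((n : ℝ) + 1)) • L n (B (P m s y))‖ + ‖(1 / ((m : ℝ) + 1)) • L m (B (P m s y))‖ := norm_sub_le _ _
        _ = (1 / ((n : ℝ) + 1)) * ‖L n (B (P m s y))‖ + (1 / ((m : ℝ) + 1)) * ‖L m (B (P m s y))‖ := by
            rw [norm_smul, norm_smul, Real.norm_of_nonneg (by positivity), Real.norm_of_nonneg (by positivity)]
        _ ≤ (1 / ((n : ℝ) + 1)) * (C * ‖y‖) + (1 / ((m : ℝ) + 1)) * (C * ‖y‖) := by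
            gcongr
            · exact le_trans (hn n _) p0
            · exact le_trans (hn m _) p0
        _ = K := by simp only [K]; ring
    have := hC' (L n) (hs n) (hp n) (fun s => P n s (B (B y)) - P m s (B (B y)))
      (fun s => G n s (B (B y)) - G m s (B (B y)))
      (fun s => L m (P m s (B (B y))) - L n (P m s (B (B y)))) K hK
      (fun s => ((hF n).dP _ s).sub ((hF m).dP _ s))
      (fun s => by
        have := ((hF n).dG (B (B y)) s).sub ((hF m).dG (B (B y)) s)
        refine HasDerivAt.congr_deriv this ?_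
        simp only [map_sub, smul_sub]; abel)
      (by simp [(hF n).P0, (hF m).P0]) hg t ht'
    simp only [(hF n).G0, (hF m).G0, sub_self, norm_zero, zero_add] at this
    have hCK : C' * K ≤ ε / 2 := by
      have hb : ∀ j : ℕ, N ≤ j → 1 / ((j : ℝ) + 1) * (4 * C' * (C * ‖y‖)) ≤ ε := by
        intro j hj
        have hj' : (N : ℝ) ≤ j := by exact_mod_cast hj
        have : 4 * C' * (C * ‖y‖) / ε < (j : ℝ) + 1 := by linarith
        rw [div_lt_iff₀ hε] at this
        rw [div_mul_eq_mul_div, one_mul, div_le_iff₀ (by positivity)]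
        linarith
      have b1 := hb n hn'
      have b2 := hb m hm
      simp only [K]
      nlinarith
    exact ⟨le_trans this.1 hCK, le_trans this.2 hCK⟩
  have hx1 : C * ‖x - B (B y)‖ ≤ ε / 4 := by
    have h4 : ‖x - B (B y)‖ ≤ ε / (4 * (C + 1)) := by
      exact le_of_lt hx0
    calc C * ‖x - B (B y)‖ ≤ (C + 1) * (ε / (4 * (C + 1))) := by gcongr; linarith
      _ = ε / 4 := by field_simp
  have tri : ∀ (u u' v v' : H), ‖u - u'‖ ≤ ε / 4 → ‖v - v'‖ ≤ ε / 4 → ‖u' - v'‖ ≤ ε / 2 → ‖u - v‖ ≤ ε := by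
    intro u u' v v' q1 q2 q3
    have : u - v = (u - u') + (u' - v') - (v - v') := by abel
    rw [this]
    refine le_trans (norm_sub_le _ _) ?_
    have := norm_add_le (u - u') (u' - v')
    linarith
  constructor
  · refine tri _ _ _ _ ?_ ?_ key.2
    · rw [← map_sub]; exact le_trans (hC n _ t ht').1 hx1
    · rw [← map_sub]; exact le_trans (hC m _ t ht').1 hx1
  · refine tri _ _ _ _ ?_ ?_ key.1
    · rw [← map_sub]; exact le_trans (hC n _ t ht').2 hx1
    · rw [← map_sub]; exact le_trans (hC m _ t ht').2 hx1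

end Pool.Agent.X297.FECON
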