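import Mathlib

/-! Statements of the parts of the disproof of MP_218893_pr (helper297).
Laws are uniform on a finite type `Ω`, pushed forward by `g : Ω → G`. -/

set_option autoImplicit false

namespace Pool.Agent.X297.LO

open MeasureTheory

/-- The number of triples with `a g(p) + b g(q) + c g(r) = k`. -/
noncomputable def cnt {Ω G : Type} [Fintype Ω] [AddCommGroup G] (g : Ω → G) (a b c : ℤ) (k : G) : ℕ :=
  Nat.card {p : Ω × Ω × Ω // a • g p.1 + b • g p.2.1 + c • g p.2.2 = k}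

/-- MEAS: the frozen statement `S19204` from a finite example. Take `n = 3`, `d = card ι`, `μ` = the pushforward of the
uniform measure; eight sign patterns reduce to `+++` and `+-+` by permutation and `k ↦ -k`. -/
def S_MEAS : Prop :=
  (∃ (ι Ω : Type) (_ : Fintype ι) (_ : Fintype Ω) (_ : Nonempty Ω) (g : Ω → ι → ℤ) (x : ι → ℤ),
      (∀ k, cnt g 1 1 1 k < cnt g 1 (-1) 2 x) ∧ (∀ k, cnt g 1 (-1) 1 k < cnt g 1 (-1) 2 x)) →
    ¬ (∀ (n d : ℕ) (μ : Measure (Fin d → ℤ)) [IsProbabilityMeasure μ],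
      ∃ w : Fin n → ℤ, (∀ i, w i = 1 ∨ w i = -1) ∧
        ∀ a : Fin n → ℝ, (∀ i, a i ≠ 0) → ∀ x : Fin d → ℝ,
          Measure.pi (fun _ : Fin n => μ)
              {ω : Fin n → Fin d → ℤ | ∑ i, a i • (fun j => ((ω i j : ℤ) : ℝ)) = x}
            ≤ ⨆ k : Fin d → ℤ, Measure.pi (fun _ : Fin n => μ)
              {ω : Fin n → Fin d → ℤ | ∑ i, w i • ω i = k})

/-- PROD: independent blocks: `n` copies of `g : Ω → ℤ` and one `h : Ω' → β → ℤ`. -/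
def S_PROD : Prop :=
  ∀ (n : ℕ) (Ω Ω' β : Type) [Fintype Ω] [Fintype Ω'] (g : Ω → ℤ) (h : Ω' → β → ℤ) (a b c : ℤ)
    (x : Fin n → ℤ) (y : β → ℤ),
    cnt (fun p : (Fin n → Ω) × Ω' => Sum.elim (fun j => g (p.1 j)) (h p.2)) a b c (Sum.elim x y)
      = (∏ j, cnt g a b c (x j)) * cnt h a b c y

/-- SID: the basis vectors of `ℤ^n`. -/
def S_SID : Prop :=
  ∀ n : ℕ, 0 < n →
    (∀ k, cnt (fun i : Fin n => (Pi.single i 1 : Fin n → ℤ)) 1 1 1 k ≤ 6) ∧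
    (∀ k, cnt (fun i : Fin n => (Pi.single i 1 : Fin n → ℤ)) 1 (-1) 1 k ≤ 2 * n) ∧
    ∃ y, n ≤ cnt (fun i : Fin n => (Pi.single i 1 : Fin n → ℤ)) 1 (-1) 2 y

/-- The one dimensional example: strictly more solutions of `x - y + 2z = x₀` than of `x - y + z = k` for any `k`. -/
def S_CORE : Prop :=
  ∃ (Ω : Type) (_ : Fintype Ω) (_ : Nonempty Ω) (g : Ω → ℤ) (x : ℤ),
    ∀ k, cnt g 1 (-1) 1 k < cnt g 1 (-1) 2 x

/-- ASM: assembly (powers of CORE times basis vectors; the pattern `+++` by the trivial bound `card^3`). -/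
def S_ASM : Prop :=
  S_PROD → S_SID → S_CORE →
    ∃ (ι Ω : Type) (_ : Fintype ι) (_ : Fintype Ω) (_ : Nonempty Ω) (g : Ω → ι → ℤ) (x : ι → ℤ),
      (∀ k, cnt g 1 1 1 k < cnt g 1 (-1) 2 x) ∧ (∀ k, cnt g 1 (-1) 1 k < cnt g 1 (-1) 2 x)

/-- Local examples modulo `N`. -/
def Good (N A M : ℕ) : Prop :=
  ∃ (m : ℕ) (s : Fin m → ℤ),
    (∀ k : ℤ, Nat.card {p : Fin m × Fin m × Fin m // (N : ℤ) ∣ s p.1 - s p.2.1 + s p.2.2 - k} ≤ M) ∧
    ∃ x : ℤ, A ≤ Nat.card {p : Fin m × Fin m × Fin m // (N : ℤ) ∣ s p.1 - s p.2.1 + 2 * s p.2.2 - x}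

/-- DAT: two explicit local examples (`{0,1,6,10,14}` mod 16 and `{1,4,7,12,13,22,23}` mod 27). -/
def S_DAT : Prop := Good 16 16 12 ∧ Good 27 25 22

/-- CRT: product of local examples for coprime moduli. -/
def S_CRT : Prop :=
  ∀ N₁ N₂ A₁ M₁ A₂ M₂ : ℕ, Nat.Coprime N₁ N₂ → Good N₁ A₁ M₁ → Good N₂ A₂ M₂ →
    Good (N₁ * N₂) (A₁ * A₂) (M₁ * M₂)

/-- ZUP: for every integer `k` at most `3/4 L^2` solutions of `a - b + c = k` in `[0, L)` (`L` even). -/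
def S_ZUP : Prop :=
  ∀ (m : ℕ) (k : ℤ),
    Nat.card {p : Fin (2 * m) × Fin (2 * m) × Fin (2 * m) // ((p.1 : ℕ) : ℤ) - ((p.2.1 : ℕ) : ℤ) + ((p.2.2 : ℕ) : ℤ) = k}
      ≤ 3 * m ^ 2

/-- ZLO: for `k` near `L` at least `L^2/2 - C L` solutions of `a - b + 2c = k` in `[0, L)`; here `L = 2m`, `k = 2m + e`,
`|e| ≤ E`. -/
def S_ZLO : Prop :=
  ∀ (m E : ℕ) (e : ℤ), |e| ≤ E →
    (2 * (m : ℤ) ^ 2 - 4 * m * (E + 2)) ≤
    (Nat.card {p : Fin (2 * m) × Fin (2 * m) × Fin (2 * m) //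
      ((p.1 : ℕ) : ℤ) - ((p.2.1 : ℕ) : ℤ) + 2 * ((p.2.2 : ℕ) : ℤ) = 2 * m + e} : ℤ)

/-- LIFT: from a local example with `2A > 3M` to CORE: `X = s + N z`, `z` uniform on `[0, L)`, `L` large. -/
def S_LIFT : Prop :=
  S_ZUP → S_ZLO → ∀ N A M : ℕ, 0 < N → 3 * M < 2 * A → Good N A M → S_CORE

end Pool.Agent.X297.LO
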