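import Pool.Agent.X297.LO.Stm

set_option autoImplicit false

namespace Pool.Agent.X297.LO

theorem good_of (N A M m : ℕ) (hN : 0 < N) (s : Fin m → ℤ) (x : ℤ)
    (h1 : ∀ r : Fin N, (Finset.univ.filter (fun p : Fin m × Fin m × Fin m =>
      (s p.1 - s p.2.1 + s p.2.2 - (r : ℕ)) % (N : ℤ) = 0)).card ≤ M)
    (h2 : A ≤ (Finset.univ.filter (fun p : Fin m × Fin m × Fin m =>
      (s p.1 - s p.2.1 + 2 * s p.2.2 - x) % (N : ℤ) = 0)).card) : Good N A M := by
  refine ⟨m, s, ?_, x, ?_⟩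
  · intro k
    have hk0 : 0 ≤ k % (N : ℤ) := Int.emod_nonneg _ (by omega)
    have hk1 : k % (N : ℤ) < N := Int.emod_lt_of_pos _ (by omega)
    obtain ⟨r, hr⟩ := Int.eq_ofNat_of_zero_le hk0
    have hrN : r < N := by omega
    refine le_trans (le_of_eq ?_) (h1 ⟨r, hrN⟩)
    rw [Nat.card_eq_fintype_card, Fintype.card_subtype]
    congr 1
    apply Finset.filter_congr
    intro p _
    rw [Int.dvd_iff_emod_eq_zero]
    have : k = r + N * (k / N) := by
      rw [← hr]; exact (Int.emod_add_mul_ediv k N).symm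
    constructor
    · intro h
      rw [← Int.dvd_iff_emod_eq_zero] at h ⊢
      have : (s p.1 - s p.2.1 + s p.2.2 - ((r : ℕ) : ℤ)) = (s p.1 - s p.2.1 + s p.2.2 - k) + N * (k / N) := by
        linarith
      show (N : ℤ) ∣ (s p.1 - s p.2.1 + s p.2.2 - ((r : ℕ) : ℤ))
      rw [this]
      exact dvd_add h (dvd_mul_right _ _)
    · intro h
      rw [← Int.dvd_iff_emod_eq_zero] at h ⊢
      have h' : (N : ℤ) ∣ (s p.1 - s p.2.1 + s p.2.2 - ((r : ℕ) : ℤ)) := h
      have : (s p.1 - s p.2.1 + s p.2.2 - k) = (s p.1 - s p.2.1 + s p.2.2 - ((r : ℕ) : ℤ)) - N * (k / N) := by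
        linarith
      rw [this]
      exact dvd_sub h' (dvd_mul_right _ _)
  · rw [Nat.card_eq_fintype_card, Fintype.card_subtype]
    refine le_trans h2 (le_of_eq ?_)
    congr 1
    apply Finset.filter_congr
    intro p _
    rw [Int.dvd_iff_emod_eq_zero]

theorem t_DAT : S_DAT := by
  constructor
  · refine good_of 16 16 12 5 (by norm_num) ![0, 1, 6, 10, 14] 12 ?_ ?_
    · decide +kernel
    · decide +kernel
  · refine good_of 27 25 22 7 (by norm_num) ![1, 4, 7, 12, 13, 22, 23] 8 ?_ ?_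
    · decide +kernel
    · decide +kernel

end Pool.Agent.X297.LO
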