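import Pool.Agent.X297.LO.Dat

set_option autoImplicit false

namespace Pool.Agent.X297.LO

open MeasureTheory

theorem fin (h1 : S_MEAS) (h2 : S_PROD) (h3 : S_SID) (h4 : S_ASM) (h5 : S_CRT) (h6 : S_ZUP)
    (h7 : S_ZLO) (h8 : S_LIFT) :
    ¬ (∀ (n d : ℕ) (μ : Measure (Fin d → ℤ)) [IsProbabilityMeasure μ],
      ∃ w : Fin n → ℤ, (∀ i, w i = 1 ∨ w i = -1) ∧
        ∀ a : Fin n → ℝ, (∀ i, a i ≠ 0) → ∀ x : Fin d → ℝ,
          Measure.pi (fun _ : Fin n => μ)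
              {ω : Fin n → Fin d → ℤ | ∑ i, a i • (fun j => ((ω i j : ℤ) : ℝ)) = x}
            ≤ ⨆ k : Fin d → ℤ, Measure.pi (fun _ : Fin n => μ)
              {ω : Fin n → Fin d → ℤ | ∑ i, w i • ω i = k}) :=
  h1 (h4 h2 h3 (h8 h6 h7 (16 * 27) (16 * 25) (12 * 22) (by norm_num) (by norm_num)
    (h5 16 27 16 12 25 22 (by norm_num) t_DAT.1 t_DAT.2)))

end Pool.Agent.X297.LO
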