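import Pool.Agent.X297.LO.Stm

set_option autoImplicit false

namespace Pool.Agent.X297.LO

open MeasureTheory
open scoped ENNReal

section
variable {Ω : Type} [Fintype Ω] [Nonempty Ω] {d : ℕ}

/-- the law -/
noncomputable def law (G : Ω → Fin d → ℤ) : Measure (Fin d → ℤ) :=
  letI : MeasurableSpace Ω := ⊤
  Measure.map G (PMF.uniformOfFintype Ω).toMeasure

instance (G : Ω → Fin d → ℤ) : IsProbabilityMeasure (law G) := by
  letI : MeasurableSpace Ω := ⊤
  exact Measure.isProbabilityMeasure_map (measurable_from_top (f := G)).aemeasurable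

theorem law_pi (G : Ω → Fin d → ℤ) (S : Set (Fin 3 → Fin d → ℤ)) :
    Measure.pi (fun _ : Fin 3 => law G) S
      = (Nat.card {f : Fin 3 → Ω // (fun i => G (f i)) ∈ S} : ℝ≥0∞) * ((Fintype.card Ω : ℝ≥0∞)⁻¹) ^ 3 := by
  classical
  letI : MeasurableSpace Ω := ⊤
  haveI : MeasurableSingletonClass Ω := ⟨fun _ => trivial⟩
  have hG : Measurable G := measurable_from_top
  have e1 : Measure.pi (fun _ : Fin 3 => law G)
      = Measure.map (fun (f : Fin 3 → Ω) i => G (f i))
        (Measure.pi (fun _ : Fin 3 => (PMF.uniformOfFintype Ω).toMeasure)) := by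
    have := Measure.pi_map_pi (ι := Fin 3) (μ := fun _ : Fin 3 => (PMF.uniformOfFintype Ω).toMeasure)
      (f := fun _ => G) (fun _ => hG.aemeasurable)
    rw [this]
    rfl
  have hS : MeasurableSet S := (Set.to_countable S).measurableSet
  have hm : Measurable (fun (f : Fin 3 → Ω) i => G (f i)) :=
    measurable_pi_lambda _ (fun i => hG.comp (measurable_pi_apply i))
  rw [e1, Measure.map_apply hm hS]
  have e2 : ((fun (f : Fin 3 → Ω) i => G (f i)) ⁻¹' S)
      = ((Finset.univ.filter (fun f : Fin 3 → Ω => (fun i => G (f i)) ∈ S) : Finset (Fin 3 → Ω)) : Set (Fin 3 → Ω)) := by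
    ext f; simp
  rw [e2, ← sum_measure_singleton]
  have e3 : ∀ f : Fin 3 → Ω, Measure.pi (fun _ : Fin 3 => (PMF.uniformOfFintype Ω).toMeasure) {f}
      = ((Fintype.card Ω : ℝ≥0∞)⁻¹) ^ 3 := by
    intro f
    rw [Measure.pi_singleton]
    simp [PMF.toMeasure_apply_singleton]
  rw [Finset.sum_congr rfl (fun f _ => e3 f), Finset.sum_const, Nat.card_eq_fintype_card,
    Fintype.card_subtype, nsmul_eq_mul]

end

/-- triples as functions on `Fin 3` -/
def tri (Ω : Type) : (Fin 3 → Ω) ≃ Ω × Ω × Ω where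
  toFun f := (f 0, f 1, f 2)
  invFun p := ![p.1, p.2.1, p.2.2]
  left_inv f := by
    funext i
    fin_cases i <;> rfl
  right_inv p := rfl

theorem card_tri {Ω G : Type} [Fintype Ω] [AddCommGroup G] (g : Ω → G) (w : Fin 3 → ℤ) (k : G) :
    Nat.card {f : Fin 3 → Ω // ∑ i, w i • g (f i) = k} = cnt g (w 0) (w 1) (w 2) k := by
  unfold cnt
  refine Nat.card_congr ((tri Ω).subtypeEquiv ?_)
  intro f
  rw [Fin.sum_univ_three]
  rfl

theorem cnt_neg {Ω G : Type} [Fintype Ω] [AddCommGroup G] (g : Ω → G) (a b c : ℤ) (k : G) :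
    cnt g (-a) (-b) (-c) k = cnt g a b c (-k) := by
  unfold cnt
  refine Nat.card_congr ((Equiv.refl _).subtypeEquiv ?_)
  intro p
  simp only [Equiv.refl_apply, neg_smul]
  constructor
  · intro h
    rw [← h]; abel
  · intro h
    rw [← neg_eq_iff_eq_neg] at h
    rw [← h]; abel

theorem cnt_swap23 {Ω G : Type} [Fintype Ω] [AddCommGroup G] (g : Ω → G) (a b c : ℤ) (k : G) :
    cnt g a b c k = cnt g a c b k := by
  unfold cnt
  refine Nat.card_congr (((Equiv.refl Ω).prodCongr (Equiv.prodComm Ω Ω)).subtypeEquiv ?_)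
  intro p
  simp only [Equiv.prodCongr_apply, Equiv.refl_apply, Prod.map, Equiv.prodComm_apply, Prod.swap,
    Equiv.coe_refl, id]
  rw [add_assoc, add_comm (b • g p.2.1), ← add_assoc]

theorem cnt_swap12 {Ω G : Type} [Fintype Ω] [AddCommGroup G] (g : Ω → G) (a b c : ℤ) (k : G) :
    cnt g a b c k = cnt g b a c k := by
  unfold cnt
  let e : Ω × Ω × Ω ≃ Ω × Ω × Ω :=
    ⟨fun p => (p.2.1, p.1, p.2.2), fun p => (p.2.1, p.1, p.2.2), fun _ => rfl, fun _ => rfl⟩
  refine Nat.card_congr (e.subtypeEquiv ?_)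
  intro p
  show a • g p.1 + b • g p.2.1 + c • g p.2.2 = k ↔ b • g p.2.1 + a • g p.1 + c • g p.2.2 = k
  rw [add_comm (a • g p.1)]

theorem t_MEAS : S_MEAS := by
  classical
  rintro ⟨ι, Ω, _, _, _, g, x, h1, h2⟩ H
  let e : ι ≃ Fin (Fintype.card ι) := Fintype.equivFin ι
  let G : Ω → Fin (Fintype.card ι) → ℤ := fun ω j => g ω (e.symm j)
  have hc : ∀ (a b c : ℤ) (k : Fin (Fintype.card ι) → ℤ),
      cnt G a b c k = cnt g a b c (fun i => k (e i)) := by
    intro a b c k
    unfold cnt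
    refine Nat.card_congr ((Equiv.refl _).subtypeEquiv ?_)
    intro p
    simp only [Equiv.refl_apply]
    constructor
    · intro h
      funext i
      have := congrFun h (e i)
      simpa [G] using this
    · intro h
      funext j
      have := congrFun h (e.symm j)
      simpa [G] using this
  obtain ⟨w, hw, hH⟩ := H 3 (Fintype.card ι) (law G)
  let X : Fin (Fintype.card ι) → ℤ := fun j => x (e.symm j)
  have hX : cnt G 1 (-1) 2 X = cnt g 1 (-1) 2 x := by
    rw [hc]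
    congr 1
    funext i
    simp [X]
  have k1 : ∀ k, cnt G 1 1 1 k < cnt G 1 (-1) 2 X := by
    intro k; rw [hX, hc]; exact h1 _
  have k2 : ∀ k, cnt G 1 (-1) 1 k < cnt G 1 (-1) 2 X := by
    intro k; rw [hX, hc]; exact h2 _
  have kw : ∀ k, cnt G (w 0) (w 1) (w 2) k < cnt G 1 (-1) 2 X := by
    intro k
    rcases hw 0 with a0 | a0 <;> rcases hw 1 with a1 | a1 <;> rcases hw 2 with a2 | a2 <;>
      rw [a0, a1, a2]
    · exact k1 k
    · rw [cnt_swap23]; exact k2 k
    · exact k2 k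
    · have := cnt_neg G (-1) 1 1 k
      rw [neg_neg] at this
      rw [this, cnt_swap12]; exact k2 _
    · rw [cnt_swap12]; exact k2 k
    · have := cnt_neg G 1 (-1) 1 k
      rw [neg_neg] at this
      rw [this]; exact k2 _
    · have := cnt_neg G 1 1 (-1) k
      rw [neg_neg] at this
      rw [this, cnt_swap23]; exact k2 _
    · rw [cnt_neg]; exact k1 _
  have hfin := hH ![1, -1, 2] (by intro i; fin_cases i <;> simp) (fun j => ((X j : ℤ) : ℝ))
  have hL : Measure.pi (fun _ : Fin 3 => law G)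
      {ω : Fin 3 → Fin (Fintype.card ι) → ℤ |
        ∑ i, (![1, -1, 2] : Fin 3 → ℝ) i • (fun j => ((ω i j : ℤ) : ℝ)) = (fun j => ((X j : ℤ) : ℝ))}
      = (cnt G 1 (-1) 2 X : ℝ≥0∞) * ((Fintype.card Ω : ℝ≥0∞)⁻¹) ^ 3 := by
    have hset : {ω : Fin 3 → Fin (Fintype.card ι) → ℤ |
        ∑ i, (![1, -1, 2] : Fin 3 → ℝ) i • (fun j => ((ω i j : ℤ) : ℝ)) = (fun j => ((X j : ℤ) : ℝ))}
        = {ω | ∑ i, (![1, -1, 2] : Fin 3 → ℤ) i • ω i = X} := by
      ext ω
      simp only [Set.mem_setOf_eq, Fin.sum_univ_three]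
      constructor
      · intro h
        funext j
        have := congrFun h j
        simp at this ⊢
        exact_mod_cast this
      · intro h
        funext j
        have := congrFun h j
        simp at this ⊢
        exact_mod_cast this
    rw [hset, law_pi]
    congr 2
    exact card_tri G ![1, -1, 2] X
  have hR : ∀ k, Measure.pi (fun _ : Fin 3 => law G)
      {ω : Fin 3 → Fin (Fintype.card ι) → ℤ | ∑ i, w i • ω i = k}
      = (cnt G (w 0) (w 1) (w 2) k : ℝ≥0∞) * ((Fintype.card Ω : ℝ≥0∞)⁻¹) ^ 3 := by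
    intro k
    rw [law_pi]
    congr 2
    exact card_tri G w k
  rw [hL] at hfin
  simp_rw [hR] at hfin
  have hle : (⨆ k, (cnt G (w 0) (w 1) (w 2) k : ℝ≥0∞) * ((Fintype.card Ω : ℝ≥0∞)⁻¹) ^ 3)
      ≤ ((cnt G 1 (-1) 2 X - 1 : ℕ) : ℝ≥0∞) * ((Fintype.card Ω : ℝ≥0∞)⁻¹) ^ 3 := by
    refine iSup_le fun k => ?_
    gcongr
    have := kw k
    omega
  have hcard0 : (Fintype.card Ω : ℝ≥0∞) ≠ 0 := by
    simp
  have hpos : ((Fintype.card Ω : ℝ≥0∞)⁻¹) ^ 3 ≠ 0 := by
    refine pow_ne_zero _ ?_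
    exact ENNReal.inv_ne_zero.mpr (ENNReal.natCast_ne_top _)
  have htop : ((Fintype.card Ω : ℝ≥0∞)⁻¹) ^ 3 ≠ ⊤ := by
    refine ENNReal.pow_ne_top ?_
    exact ENNReal.inv_ne_top.mpr hcard0
  have hfin2 := le_trans hfin hle
  rw [ENNReal.mul_le_mul_iff_left hpos htop] at hfin2
  have : cnt G 1 (-1) 2 X ≤ cnt G 1 (-1) 2 X - 1 := by exact_mod_cast hfin2
  have := k1 0
  omega

end Pool.Agent.X297.LO
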